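import Pool.Agent.H56.Inv.Asym

set_option autoImplicit false

/-!
# IQ.Mat : the generating function of `F_n(N) = ∑_(A symmetric, |A| = n) q^(wt A)`

`∑_n u^n F_n(N) = ∏_(i<N) 1/(1 - u q^i) ∏_(i<j<N) 1/(1 - u² q^(i+j))`.
-/

namespace Pool.Agent.H94.IQ

open PowerSeries Finset Pool.H56.Inv

/-- `1 / (1 - w X^d)`. -/
noncomputable def geo (w : ℝ) (d : ℕ) : PowerSeries ℝ := mk fun l => if d ∣ l then w ^ (l / d) else 0

theorem geo_mul (w : ℝ) {d : ℕ} (hd : 0 < d) : geo w d * (1 - C w * X ^ d) = 1 := by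
  ext l
  have e : geo w d * (1 - C w * X ^ d) = geo w d - C w * (X ^ d * geo w d) := by ring
  rw [e, map_sub, coeff_C_mul, coeff_X_pow_mul', coeff_one]
  unfold geo
  rw [coeff_mk]
  by_cases h0 : l = 0
  · subst h0
    simp [hd.ne']
  · rw [if_neg h0]
    by_cases h1 : d ∣ l
    · have h2 : d ≤ l := Nat.le_of_dvd (Nat.pos_of_ne_zero h0) h1
      obtain ⟨t, rfl⟩ := h1
      obtain ⟨t', rfl⟩ : ∃ t', t = t' + 1 := by
        cases t with
        | zero => exact absurd (by simp) h0
        | succ t => exact ⟨t, rfl⟩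
      rw [if_pos (dvd_mul_right _ _), if_pos h2, coeff_mk,
        show d * (t' + 1) - d = d * t' by rw [mul_add, mul_one, Nat.add_sub_cancel],
        if_pos (dvd_mul_right _ _), Nat.mul_div_cancel_left _ hd, Nat.mul_div_cancel_left _ hd]
      ring
    · rw [if_neg h1]
      split_ifs with h2
      · rw [coeff_mk, if_neg]
        · ring
        · intro h3
          exact h1 (by
            have := dvd_add h3 (dvd_refl d)
            rwa [Nat.sub_add_cancel h2] at this)
      · ring

variable {N : ℕ}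

/-- degree of the variable `e` -/
def de (e : Fin N × Fin N) : ℕ := if e.1 = e.2 then 1 else 2

/-- weight of the variable `e` -/
def we (e : Fin N × Fin N) : ℕ := if e.1 = e.2 then (e.1 : ℕ) else (e.1 : ℕ) + e.2

theorem de_pos (e : Fin N × Fin N) : 0 < de e := by
  unfold de
  split_ifs <;> norm_num

theorem sum_sym (f : Fin N → Fin N → ℕ) :
    ∑ a, ∑ b, f a b = ∑ e ∈ Tri N, (if e.1 = e.2 then f e.1 e.2 else f e.1 e.2 + f e.2 e.1) := by
  have h1 : ∑ a, ∑ b, f a b = ∑ e : Fin N × Fin N, f e.1 e.2 := by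
    rw [Fintype.sum_prod_type]
  have h2 : ∑ e : Fin N × Fin N, f e.1 e.2 =
      ∑ e ∈ univ.filter (fun e : Fin N × Fin N => e.1 = e.2), f e.1 e.2 +
      (∑ e ∈ univ.filter (fun e : Fin N × Fin N => e.1 < e.2), f e.1 e.2 +
        ∑ e ∈ univ.filter (fun e : Fin N × Fin N => e.2 < e.1), f e.1 e.2) := by
    simp_rw [Finset.sum_filter]
    rw [← Finset.sum_add_distrib, ← Finset.sum_add_distrib]
    refine Finset.sum_congr rfl fun e _ => ?_
    rcases lt_trichotomy e.1 e.2 with h | h | h
    · simp [h, h.ne, h.not_gt]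
    · simp [h]
    · simp [h, h.ne', h.not_gt]
  have h3 : ∑ e ∈ univ.filter (fun e : Fin N × Fin N => e.2 < e.1), f e.1 e.2 =
      ∑ e ∈ univ.filter (fun e : Fin N × Fin N => e.1 < e.2), f e.2 e.1 := by
    refine Finset.sum_bij' (fun e _ => (e.2, e.1)) (fun e _ => (e.2, e.1)) ?_ ?_ ?_ ?_ ?_ <;>
      simp
  have h4 : ∑ e ∈ Tri N, (if e.1 = e.2 then f e.1 e.2 else f e.1 e.2 + f e.2 e.1) =
      ∑ e ∈ univ.filter (fun e : Fin N × Fin N => e.1 = e.2), f e.1 e.2 +
      (∑ e ∈ univ.filter (fun e : Fin N × Fin N => e.1 < e.2), f e.1 e.2 +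
        ∑ e ∈ univ.filter (fun e : Fin N × Fin N => e.1 < e.2), f e.2 e.1) := by
    unfold Tri
    simp_rw [Finset.sum_filter]
    rw [← Finset.sum_add_distrib, ← Finset.sum_add_distrib]
    refine Finset.sum_congr rfl fun e _ => ?_
    rcases lt_trichotomy e.1 e.2 with h | h | h
    · simp [h, h.ne, h.le]
    · simp [h]
    · simp [h.ne', h.not_gt, h.not_ge]
  rw [h1, h2, h3, h4]

/-- the exponent vector of a symmetric matrix -/
noncomputable def toF (A : Fin N → Fin N → ℕ) : Fin N × Fin N →₀ ℕ :=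
  Finsupp.equivFunOnFinite.symm fun e => if e.1 ≤ e.2 then de e * A e.1 e.2 else 0

/-- the symmetric matrix of an exponent vector -/
def ofF (l : Fin N × Fin N →₀ ℕ) (a b : Fin N) : ℕ :=
  if a ≤ b then l (a, b) / de (a, b) else l (b, a) / de (b, a)

theorem toF_apply (A : Fin N → Fin N → ℕ) (e : Fin N × Fin N) :
    toF A e = if e.1 ≤ e.2 then de e * A e.1 e.2 else 0 := rfl

theorem Fp_prod (q : ℝ) (n : ℕ) :
    Polynomial.aeval q (Fp n N) = coeff n (∏ e ∈ Tri N, geo (q ^ we e) (de e)) := by
  classical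
  rw [PowerSeries.coeff_prod]
  have h0 : ∀ l ∈ (Tri N).finsuppAntidiag n, (∏ e ∈ Tri N, coeff (l e) (geo (q ^ we e) (de e))) =
      if ∀ e ∈ Tri N, de e ∣ l e then ∏ e ∈ Tri N, (q ^ we e) ^ (l e / de e) else 0 := by
    intro l _
    unfold geo
    simp only [coeff_mk]
    split_ifs with h
    · exact Finset.prod_congr rfl fun e he => if_pos (h e he)
    · push Not at h
      obtain ⟨e, he, hd⟩ := h
      exact Finset.prod_eq_zero he (if_neg hd)
  rw [Finset.sum_congr rfl h0, ← Finset.sum_filter]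
  unfold Fp
  rw [map_sum]
  simp only [map_pow, Polynomial.aeval_X]
  refine Finset.sum_bij' (fun A _ => toF A) (fun l _ => ofF l) ?_ ?_ ?_ ?_ ?_
  · intro A hA
    rw [mem_SM] at hA
    rw [mem_filter, Finset.mem_finsuppAntidiag]
    refine ⟨⟨?_, ?_⟩, ?_⟩
    · rw [← hA.2, sum_sym]
      refine Finset.sum_congr rfl fun e he => ?_
      have he' : e.1 ≤ e.2 := by simpa [Tri] using he
      rw [toF_apply, if_pos he']
      unfold de
      split_ifs with h
      · ring
      · rw [hA.1 e.2 e.1]; ring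
    · intro e he
      rw [Finsupp.mem_support_iff, toF_apply] at he
      simp only [Tri, mem_filter, mem_univ, true_and]
      by_contra h
      exact he (if_neg h)
    · intro e he
      have he' : e.1 ≤ e.2 := by simpa [Tri] using he
      rw [toF_apply, if_pos he']
      exact dvd_mul_right _ _
  · intro l hl
    rw [mem_filter, Finset.mem_finsuppAntidiag] at hl
    obtain ⟨⟨h1, h2⟩, h3⟩ := hl
    have hsym : ∀ a b, ofF l a b = ofF l b a := by
      intro a b
      unfold ofF
      rcases lt_trichotomy a b with h | h | h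
      · rw [if_pos h.le, if_neg h.not_ge]
      · rw [h]
      · rw [if_neg h.not_ge, if_pos h.le]
    rw [mem_SM]
    refine ⟨hsym, ?_⟩
    rw [sum_sym, ← h1]
    refine Finset.sum_congr rfl fun e he => ?_
    have he' : e.1 ≤ e.2 := by simpa [Tri] using he
    have h4 := h3 e he
    rw [hsym e.2 e.1]
    have h5 : ofF l e.1 e.2 = l e / de e := by
      unfold ofF
      rw [if_pos he']
    rw [h5]
    unfold de at h4 ⊢
    split_ifs with h
    · simp
    · rw [if_neg h] at h4
      omega
  · intro A hA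
    rw [mem_SM] at hA
    funext a b
    unfold ofF
    rw [toF_apply, toF_apply]
    split_ifs with h h1
    · exact Nat.mul_div_cancel_left _ (de_pos _)
    · rw [hA.1 a b]
      exact Nat.mul_div_cancel_left _ (de_pos _)
    · exact absurd (le_of_not_ge h) h1
  · intro l hl
    rw [mem_filter, Finset.mem_finsuppAntidiag] at hl
    obtain ⟨⟨h1, h2⟩, h3⟩ := hl
    ext e
    rw [toF_apply]
    split_ifs with h
    · have he : e ∈ Tri N := by simpa [Tri] using h
      unfold ofF
      rw [if_pos h]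
      exact Nat.mul_div_cancel' (h3 e he)
    · by_contra hc
      have h4 : e ∈ l.support := Finsupp.mem_support_iff.2 (Ne.symm hc)
      have h5 := h2 h4
      exact h (by simpa [Tri] using h5)
  · intro A hA
    rw [mem_SM] at hA
    unfold wt
    rw [sum_sym (fun a b => (a : ℕ) * A a b)]
    rw [← Finset.prod_pow_eq_pow_sum]
    refine Finset.prod_congr rfl fun e he => ?_
    have he' : e.1 ≤ e.2 := by simpa [Tri] using he
    rw [toF_apply, if_pos he', Nat.mul_div_cancel_left _ (de_pos _), ← pow_mul]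
    congr 1
    unfold we
    split_ifs with h
    · rfl
    · rw [hA.1 e.2 e.1]; ring

/-- The generating function. -/
theorem Fp_gf (q : ℝ) (N : ℕ) :
    (mk fun n => Polynomial.aeval q (Fp n N)) *
      ((∏ i : Fin N, (1 - C (q ^ (i : ℕ)) * X)) *
        ∏ e ∈ (univ : Finset (Fin N × Fin N)).filter (fun e => e.1 < e.2),
          (1 - C (q ^ ((e.1 : ℕ) + e.2)) * X ^ 2)) = 1 := by
  have h1 : (mk fun n => Polynomial.aeval q (Fp n N)) = ∏ e ∈ Tri N, geo (q ^ we e) (de e) := by
    ext n
    rw [coeff_mk, Fp_prod]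
  have h2 : (∏ i : Fin N, (1 - C (q ^ (i : ℕ)) * X)) *
        ∏ e ∈ (univ : Finset (Fin N × Fin N)).filter (fun e => e.1 < e.2),
          (1 - C (q ^ ((e.1 : ℕ) + e.2)) * X ^ 2) =
      ∏ e ∈ Tri N, (1 - C (q ^ we e) * X ^ de e : PowerSeries ℝ) := by
    have h3 : Tri N = (univ.filter fun e : Fin N × Fin N => e.1 = e.2) ∪
        (univ.filter fun e : Fin N × Fin N => e.1 < e.2) := by
      ext e
      simp only [Tri, mem_filter, mem_univ, true_and, mem_union]
      rw [le_iff_eq_or_lt]
    rw [h3, Finset.prod_union]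
    · congr 1
      · refine Finset.prod_bij (fun i _ => (i, i)) ?_ ?_ ?_ ?_
        · simp
        · intro a _ b _ h
          exact (Prod.mk.inj h).1
        · rintro ⟨a, b⟩ h
          simp only [mem_filter, mem_univ, true_and] at h
          subst h
          exact ⟨a, mem_univ _, rfl⟩
        · intro i _
          unfold we de
          simp
      · refine Finset.prod_congr rfl fun e he => ?_
        have he' : e.1 < e.2 := by simpa using he
        unfold we de
        rw [if_neg he'.ne, if_neg he'.ne]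
    · rw [Finset.disjoint_filter]
      intro e _ h h'
      exact absurd h h'.ne
  rw [h1, h2, ← Finset.prod_mul_distrib]
  exact Finset.prod_eq_one fun e _ => geo_mul _ (de_pos e)

end Pool.Agent.H94.IQ
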