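import Pool.Agent.H30.WF.Def
import Pool.Agent.H20.GI.Coef

set_option autoImplicit false

/-!
# IQ.CCc : the coefficient of a run is the coefficient of the interval formula (part C3)
-/

namespace Pool.Agent.H94.IQ

open Finset Pool.Agent.H30.WF

/-- `0 + 1 + .. + (m - 1)` -/
def TT (m : ℕ) : ℕ := ∑ i ∈ range m, i

theorem TT_add (a b : ℕ) : TT (a + b) = TT a + TT b + a * b := by
  unfold TT
  induction b with
  | zero => simp
  | succ b ih =>
    rw [← add_assoc, Finset.sum_range_succ, ih, Finset.sum_range_succ]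
    ring

theorem TT_choose (m : ℕ) : TT m = m.choose 2 := by
  unfold TT
  rw [Finset.sum_range_id, Nat.choose_two_right]

theorem two_TT (i : ℕ) : 2 * TT i + i = i * i := by
  unfold TT
  induction i with
  | zero => simp
  | succ i ih =>
    rw [Finset.sum_range_succ]
    nlinarith [ih]

/-- `(1 + q) .. (1 + q^m)` -/
noncomputable def PP (q : ℝ) (m : ℕ) : ℝ := ∏ i ∈ range m, (1 + q ^ (i + 1))

/-- `(1 - q) .. (1 - q^m)` -/
noncomputable def QQ (q : ℝ) (m : ℕ) : ℝ := ∏ i ∈ range m, (1 - q ^ (i + 1))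

theorem prod_pow_range (q : ℝ) (m : ℕ) : ∏ i ∈ range m, q ^ i = q ^ TT m := by
  unfold TT
  rw [Finset.prod_pow_eq_pow_sum]

theorem PP_pos {q : ℝ} (hq : 0 < q) (m : ℕ) : 0 < PP q m :=
  Finset.prod_pos fun i _ => by positivity

theorem PP_succ (q : ℝ) (m : ℕ) : PP q (m + 1) = PP q m * (1 + q ^ (m + 1)) := by
  unfold PP
  rw [Finset.prod_range_succ]

/-- `∏_(r<h+1) (1 + q^r) = 2 PP h` -/
theorem prod_one_add (q : ℝ) (h : ℕ) : ∏ r ∈ range (h + 1), (1 + q ^ r) = 2 * PP q h := by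
  unfold PP
  rw [Finset.prod_range_succ']
  norm_num [mul_comm]

/-- `∏_(k<i) (q^k + q^(i+h)) = q^(TT i) PP (i+h) / PP h` -/
theorem prod_add (q : ℝ) (i h : ℕ) :
    (∏ k ∈ range i, (q ^ k + q ^ (i + h))) * PP q h = q ^ TT i * PP q (i + h) := by
  have h1 : ∏ k ∈ range i, (q ^ k + q ^ (i + h)) =
      (∏ k ∈ range i, q ^ k) * ∏ k ∈ range i, (1 + q ^ (i + h - k)) := by
    rw [← Finset.prod_mul_distrib]
    refine Finset.prod_congr rfl fun k hk => ?_
    rw [mem_range] at hk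
    rw [mul_add, mul_one, ← pow_add]
    congr 2
    omega
  have h2 : ∏ k ∈ range i, (1 + q ^ (i + h - k)) = ∏ k ∈ range i, (1 + q ^ (h + k + 1)) := by
    rw [← Finset.prod_range_reflect]
    refine Finset.prod_congr rfl fun k hk => ?_
    rw [mem_range] at hk
    congr 2
    omega
  have h3 : PP q (i + h) = PP q h * ∏ k ∈ range i, (1 + q ^ (h + k + 1)) := by
    unfold PP
    rw [add_comm i h, Finset.prod_range_add]
  rw [h1, h2, prod_pow_range, h3]
  ring

/-- `∏_(k<i) (q^k - q^i) = q^(TT i) QQ i` -/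
theorem prod_sub (q : ℝ) (i : ℕ) : ∏ k ∈ range i, (q ^ k - q ^ i) = q ^ TT i * QQ q i := by
  have h1 : ∏ k ∈ range i, (q ^ k - q ^ i) =
      (∏ k ∈ range i, q ^ k) * ∏ k ∈ range i, (1 - q ^ (i - k)) := by
    rw [← Finset.prod_mul_distrib]
    refine Finset.prod_congr rfl fun k hk => ?_
    rw [mem_range] at hk
    rw [mul_sub, mul_one, ← pow_add]
    congr 2
    omega
  have h2 : ∏ k ∈ range i, (1 - q ^ (i - k)) = QQ q i := by
    unfold QQ
    rw [← Finset.prod_range_reflect]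
    refine Finset.prod_congr rfl fun k hk => ?_
    rw [mem_range] at hk
    congr 2
    omega
  rw [h1, h2, prod_pow_range]

/-- first product of `cc` -/
theorem prodA (q : ℝ) (i h : ℕ) :
    ∏ k ∈ Ico i (i + h + 1), (q ^ k * (q ^ k + q ^ i))⁻¹ =
      (q ^ (2 * i * (h + 1) + TT (h + 1)) * (2 * PP q h))⁻¹ := by
  rw [Finset.prod_Ico_eq_prod_range, Finset.prod_inv_distrib]
  congr 1
  rw [show i + h + 1 - i = h + 1 by omega, ← prod_one_add, pow_add, ← prod_pow_range, pow_mul]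
  have e : (q ^ (2 * i)) ^ (h + 1) = ∏ _k ∈ range (h + 1), q ^ (2 * i) := by
    rw [Finset.prod_const, card_range]
  rw [e, ← Finset.prod_mul_distrib, ← Finset.prod_mul_distrib]
  refine Finset.prod_congr rfl fun k _ => ?_
  ring

/-- second product of `cc` -/
theorem prodB {q : ℝ} (hq : 0 < q) (i h K : ℕ) :
    ∏ k ∈ range i, (q ^ k + q ^ K) / (q ^ k * (q ^ k - q ^ i) * (q ^ k + q ^ (i + h))) =
      (∏ k ∈ range i, (q ^ k + q ^ K)) * PP q h /
        (q ^ (3 * TT i) * QQ q i * PP q (i + h)) := by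
  have hP := (PP_pos hq h).ne'
  have h1 : ∏ k ∈ range i, (q ^ k + q ^ (i + h)) = q ^ TT i * PP q (i + h) / PP q h := by
    rw [eq_div_iff hP, prod_add]
  rw [Finset.prod_div_distrib, Finset.prod_mul_distrib, Finset.prod_mul_distrib, prod_pow_range,
    prod_sub, h1]
  have e : q ^ TT i * (q ^ TT i * QQ q i) * (q ^ TT i * PP q (i + h) / PP q h) =
      q ^ (3 * TT i) * QQ q i * PP q (i + h) / PP q h := by
    ring
  rw [e, div_div_eq_mul_div]

/-- third product of `cc` -/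
theorem prodC {q : ℝ} (hq : 0 < q) (i h a : ℕ) :
    ∏ k ∈ Ico (i + h) (i + h + a), (-(q ^ (k - i)) / (q ^ k * (q ^ (i + h) - q ^ (k + 1)))) =
      (-1) ^ a / (q ^ ((2 * i + h) * a) * QQ q a) := by
  rw [Finset.prod_Ico_eq_prod_range, show i + h + a - (i + h) = a by omega]
  have e : ∀ k ∈ range a, (-(q ^ (i + h + k - i)) / (q ^ (i + h + k) * (q ^ (i + h) - q ^ (i + h + k + 1)))) =
      (-1) / (q ^ (2 * i + h) * (1 - q ^ (k + 1))) := by
    intro k _
    have e1 : i + h + k - i = h + k := by omega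
    have e2 : q ^ (i + h + k) * (q ^ (i + h) - q ^ (i + h + k + 1)) =
        q ^ (h + k) * (q ^ (2 * i + h) * (1 - q ^ (k + 1))) := by ring
    have h0 : q ^ (h + k) ≠ 0 := pow_ne_zero _ hq.ne'
    rw [e1, e2, neg_div, div_mul_eq_div_div, div_self h0, neg_div]
  rw [Finset.prod_congr rfl e, Finset.prod_div_distrib, Finset.prod_const, card_range,
    Finset.prod_mul_distrib, Finset.prod_const, card_range, ← pow_mul]
  rfl

/-- `pr` of `icoef` -/
theorem pr_mul {q : ℝ} (hq : 0 < q) (K b : ℕ) :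
    Pool.H20.GI.pr q K b = (∏ s ∈ range b, (q ^ s + q ^ K)) / (q ^ (K * b) * QQ q b) := by
  unfold Pool.H20.GI.pr QQ
  have h0 : q ^ K ≠ 0 := pow_ne_zero _ hq.ne'
  rw [pow_mul]
  have e : (q ^ K) ^ b = ∏ _s ∈ range b, q ^ K := by rw [Finset.prod_const, card_range]
  rw [e, ← Finset.prod_mul_distrib, ← Finset.prod_div_distrib]
  refine Finset.prod_congr rfl fun s _ => ?_
  rw [div_mul_eq_div_div]
  congr 1
  field_simp
  ring

/-- The coefficient of the run `[i, i + h + 1)` of `{0, .., k}`, `k = i + h + a`. -/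
theorem cc_icoef {q : ℝ} (hq : 0 < q) (hq1 : q ≠ 1) (i h a : ℕ) :
    q ^ ((i + h + a + 1).choose 2) * (∏ r ∈ range (i + h + a), (1 + q ^ (r + 1))) *
      cc q (i + h + a + 1) 1 i (i + h + 1) = Pool.H20.GI.icoef q (i + h + a) a i := by
  have hq0 : q ≠ 0 := hq.ne'
  have hQ : ∀ m, QQ q m ≠ 0 := by
    intro m
    unfold QQ
    rw [Finset.prod_ne_zero_iff]
    intro s _
    rw [sub_ne_zero]
    intro hc
    exact hq1 ((pow_eq_one_iff_of_nonneg hq.le (by omega)).1 hc.symm)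
  have hP : ∀ m, PP q m ≠ 0 := fun m => (PP_pos hq m).ne'
  -- left-hand side
  have hcc : cc q (i + h + a + 1) 1 i (i + h + 1) =
      2 * q ^ i * (q ^ (2 * i * (h + 1) + TT (h + 1)) * (2 * PP q h))⁻¹ *
        ((∏ k ∈ range i, (q ^ k + q ^ (i + h + a + 1))) * PP q (h + 1) /
          (q ^ (3 * TT i) * QQ q i * PP q (i + h + 1))) *
        ((-1) ^ a / (q ^ ((2 * i + (h + 1)) * a) * QQ q a)) := by
    unfold cc
    simp only [one_mul]
    rw [prodA, ← prodC hq i (h + 1) a, add_assoc i h 1, ← prodB hq i (h + 1)]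
    rw [show i + (h + 1) + a = i + h + a + 1 by omega]
  rw [hcc, ← TT_choose]
  change q ^ TT (i + h + a + 1) * PP q (i + h + a) * _ = _
  unfold Pool.H20.GI.icoef
  rw [pr_mul hq, pr_mul hq]
  -- the product over `a`
  have ha : (∏ s ∈ range a, (q ^ s + q ^ (i + h + a + 1))) * PP q (i + h + 1) =
      q ^ TT a * PP q (i + h + a + 1) := by
    have := prod_add q a (i + h + 1)
    rw [show a + (i + h + 1) = i + h + a + 1 by omega] at this
    exact this
  have ha' : (∏ s ∈ range a, (q ^ s + q ^ (i + h + a + 1))) =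
      q ^ TT a * (PP q (i + h + a) * (1 + q ^ (i + h + a + 1))) / PP q (i + h + 1) := by
    rw [eq_div_iff (hP _), ha, PP_succ]
  rw [ha', PP_succ q h]
  generalize (∏ k ∈ range i, (q ^ k + q ^ (i + h + a + 1))) = Z
  have h1 : (1 : ℝ) + q ^ (i + h + a + 1) ≠ 0 := by positivity
  have h2 := hP h
  have h3 := hP (i + h + 1)
  have h4 := hQ i
  have h5 := hQ a
  have e1 : (1 : ℝ) + 1 / q ^ (i + h + a + 1) = (1 + q ^ (i + h + a + 1)) / q ^ (i + h + a + 1) := by
    field_simp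
    ring
  have e2 : (1 : ℝ) + q ^ (a + i) / q ^ (i + h + a + 1) = (1 + q ^ (h + 1)) / q ^ (h + 1) := by
    rw [show i + h + a + 1 = (a + i) + (h + 1) by omega, pow_add]
    field_simp
    ring
  rw [e1, e2]
  generalize PP q (i + h + a) = Pk
  generalize PP q (i + h + 1) = Pj at h3 ⊢
  generalize PP q h = Ph at h2 ⊢
  generalize QQ q i = Qi at h4 ⊢
  generalize QQ q a = Qa at h5 ⊢
  -- exponents
  have hT := two_TT i
  have hK : TT (i + h + a + 1) = TT i + TT (h + 1) + i * (h + 1) + TT a + (i + (h + 1)) * a := by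
    rw [show i + h + a + 1 = i + (h + 1) + a by omega, TT_add, TT_add]
  have key : q ^ (TT (i + h + a + 1) + i) *
      q ^ ((h + 1) + (i + h + a + 1) * a + (i + h + a + 1) * i) =
      q ^ ((i + h + a) * a + i + TT a + (i + h + a + 1)) *
      q ^ (2 * i * (h + 1) + TT (h + 1) + 3 * TT i + (2 * i + (h + 1)) * a) := by
    rw [← pow_add, ← pow_add]
    congr 1
    rw [hK]
    zify at hT ⊢
    linear_combination -hT
  have hL : q ^ TT (i + h + a + 1) * Pk *
      (2 * q ^ i * (q ^ (2 * i * (h + 1) + TT (h + 1)) * (2 * Ph))⁻¹ *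
        (Z * (Ph * (1 + q ^ (h + 1))) / (q ^ (3 * TT i) * Qi * Pj)) *
        ((-1) ^ a / (q ^ ((2 * i + (h + 1)) * a) * Qa))) =
      ((-1) ^ a * Z * Pk * (1 + q ^ (h + 1)) / (Qi * Pj * Qa)) *
        (q ^ (TT (i + h + a + 1) + i) /
          q ^ (2 * i * (h + 1) + TT (h + 1) + 3 * TT i + (2 * i + (h + 1)) * a)) := by
    rw [pow_add q (TT (i + h + a + 1)) i,
      pow_add q (2 * i * (h + 1) + TT (h + 1) + 3 * TT i) ((2 * i + (h + 1)) * a),
      pow_add q (2 * i * (h + 1) + TT (h + 1)) (3 * TT i)]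
    field_simp
  have hR : (-1) ^ a * q ^ ((i + h + a) * a + i) * ((1 + q ^ (h + 1)) / q ^ (h + 1)) *
      (q ^ TT a * (Pk * (1 + q ^ (i + h + a + 1))) / Pj / (q ^ ((i + h + a + 1) * a) * Qa)) *
      (Z / (q ^ ((i + h + a + 1) * i) * Qi)) / ((1 + q ^ (i + h + a + 1)) / q ^ (i + h + a + 1)) =
      ((-1) ^ a * Z * Pk * (1 + q ^ (h + 1)) / (Qi * Pj * Qa)) *
        (q ^ ((i + h + a) * a + i + TT a + (i + h + a + 1)) /
          q ^ ((h + 1) + (i + h + a + 1) * a + (i + h + a + 1) * i)) := by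
    rw [pow_add q ((i + h + a) * a + i + TT a) (i + h + a + 1),
      pow_add q ((i + h + a) * a + i) (TT a),
      pow_add q ((h + 1) + (i + h + a + 1) * a) ((i + h + a + 1) * i),
      pow_add q (h + 1) ((i + h + a + 1) * a)]
    field_simp
  rw [hL, hR]
  congr 1
  rw [div_eq_div_iff (pow_ne_zero _ hq0) (pow_ne_zero _ hq0)]
  exact key

end Pool.Agent.H94.IQ
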