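import Pool.Agent.H56.Inv.Final

set_option autoImplicit false

/-!
# IQ.Frame : from `0 < q < 1` to all real `q ≥ 0`, and the frame of the statement
-/

namespace Pool.Agent.H94.IQ

open Polynomial Finset Pool.H56.Inv Pool.H56.InvQ

theorem aeval_inv {p : Polynomial ℤ} {d : ℕ} (h1 : ∀ m, m ≤ d → p.coeff m = p.coeff (d - m))
    (h2 : ∀ m, d < m → p.coeff m = 0) {q : ℝ} (hq : q ≠ 0) :
    aeval q p = q ^ d * aeval q⁻¹ p := by
  have hd : p.natDegree < d + 1 := by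
    rw [Nat.lt_succ_iff, Polynomial.natDegree_le_iff_coeff_eq_zero]
    exact fun m hm => h2 m hm
  rw [Polynomial.aeval_eq_sum_range' hd, Polynomial.aeval_eq_sum_range' hd,
    ← Finset.sum_range_reflect, Finset.mul_sum]
  refine Finset.sum_congr rfl fun m hm => ?_
  rw [mem_range] at hm
  have e : d + 1 - 1 - m = d - m := by omega
  rw [e, ← h1 m (by omega)]
  have h3 : q ^ (d - m) = q ^ d * q⁻¹ ^ m := by
    rw [inv_pow, pow_sub₀ _ hq (by omega)]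
  rw [h3]
  simp only [zsmul_eq_mul]
  ring

theorem nonneg_all {p : Polynomial ℤ} {d : ℕ} (h1 : ∀ m, m ≤ d → p.coeff m = p.coeff (d - m))
    (h2 : ∀ m, d < m → p.coeff m = 0) (h : ∀ q : ℝ, 0 < q → q < 1 → 0 ≤ aeval q p) :
    ∀ q : ℝ, 0 ≤ q → 0 ≤ aeval q p := by
  have hcont : Continuous fun q : ℝ => aeval q p := p.continuous_aeval
  have hcl : IsClosed {q : ℝ | 0 ≤ aeval q p} := isClosed_le continuous_const hcont
  have h01 : ∀ q : ℝ, 0 ≤ q → q ≤ 1 → 0 ≤ aeval q p := by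
    have hsub : closure (Set.Ioo (0 : ℝ) 1) ⊆ {q : ℝ | 0 ≤ aeval q p} :=
      closure_minimal (fun q hq => h q hq.1 hq.2) hcl
    rw [closure_Ioo (zero_ne_one)] at hsub
    exact fun q hq hq1 => hsub ⟨hq, hq1⟩
  intro q hq
  rcases le_or_gt q 1 with h3 | h3
  · exact h01 q hq h3
  · rw [aeval_inv h1 h2 (by linarith : q ≠ 0)]
    refine mul_nonneg (pow_nonneg hq d) (h01 _ (inv_nonneg.2 hq) ?_)
    exact inv_le_one_of_one_le₀ h3.le

/-- The frame: nonnegativity for `0 < q < 1` in the form of `Ev` gives the statement. -/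
theorem frame (h : ∀ n k : ℕ, 2 * k + 1 ≤ n → ∀ c : ℕ → Polynomial ℤ, Ev n c →
    ∀ q : ℝ, 0 < q → q < 1 → 0 ≤ aeval q (c k)) :
    ∀ n : ℕ, 1 ≤ n → ∃ γ : ℕ → Polynomial ℤ, invPoly n = expansion n γ ∧
      (∀ γ' : ℕ → Polynomial ℤ, invPoly n = expansion n γ' → ∀ k, k ≤ (n - 1) / 2 → γ' k = γ k) ∧
      ∀ k, k ≤ (n - 1) / 2 → ∀ q : ℝ, 0 ≤ q → 0 ≤ aeval q (γ k) := by
  intro n hn
  obtain ⟨γ, h1, h2, h3⟩ := joint n hn
  refine ⟨γ, h1, h2, fun k hk => ?_⟩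
  obtain ⟨h4, h5, -⟩ := h3 k hk
  refine nonneg_all h4 h5 fun q hq hq1 => ?_
  have h6 := h n k (by omega) _ (ev_of_expansion ((expansion_iff n γ).1 h1)) q hq hq1
  simp only [map_mul, map_pow, aeval_X] at h6
  exact nonneg_of_mul_nonneg_right h6 (by positivity)

end Pool.Agent.H94.IQ
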